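import Pool.Agent.Helper77.TK.Tool

/-!
Packet TK-A for MP_c88f67_an: the absorption of weakly compact sets.
-/

namespace Pool.Agent.Helper77.TK

open Filter Topology Pool.Agent.Helper26.TK

section main

variable {Φ : Set (Node →₀ ℝ)} {X : Type} [NormedAddCommGroup X] [NormedSpace ℝ X]

/-- The condition `b(x) > θ`. -/
def Bad (H : NS Φ X) (L : Set X) (θ : ℝ) (x : ℕ → Bool) : Prop :=
  ∀ n : ℕ, ∃ v ∈ L, ∃ φ ∈ Φ, (∀ t, φ t ≠ 0 → n ≤ t.length ∧ t = node x t.length) ∧
    θ < ap H v φ

lemma Bad.mono {H : NS Φ X} {L : Set X} {θ θ' : ℝ} {x : ℕ → Bool} (h : Bad H L θ x)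
    (hθ : θ' ≤ θ) : Bad H L θ' x := by
  intro n
  obtain ⟨v, hv, φ, hφ, h1, h2⟩ := h n
  exact ⟨v, hv, φ, hφ, h1, lt_of_le_of_lt hθ h2⟩

/-- In an infinite set of branches there is a sequence converging to a branch `x` with
strictly increasing first differences from `x`. -/
lemma exists_seq_acc {T : Set (ℕ → Bool)} (hT : T.Infinite) :
    ∃ (y : ℕ → (ℕ → Bool)) (p : ℕ → ℕ), StrictMono p ∧ (∀ i, y i ∈ T) ∧
      ∀ i j, i < j → y i (p i) ≠ y j (p i) := by
  obtain ⟨x, -, hx⟩ := hT.exists_accPt_of_subset_isCompact isCompact_univ (Set.subset_univ _)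
  have hstep : ∀ n : ℕ, ∃ y ∈ T, ∃ p, n ≤ p ∧ (∀ i < p, y i = x i) ∧ y p ≠ x p := by
    intro n
    have hU : {y : ℕ → Bool | ∀ i < n, y i = x i} ∈ 𝓝 x := by
      apply IsOpen.mem_nhds
      · have : {y : ℕ → Bool | ∀ i < n, y i = x i} = ⋂ i ∈ Finset.range n, {y | y i = x i} := by
          ext y; simp
        rw [this]
        apply isOpen_biInter_finset
        intro i _
        have h2 : {y : ℕ → Bool | y i = x i} = (fun y : ℕ → Bool => y i) ⁻¹' {x i} := rfl
        rw [h2]
        exact (isOpen_discrete _).preimage (continuous_apply i)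
      · intro i _; rfl
    rw [accPt_iff_nhds] at hx
    obtain ⟨y, ⟨hyU, hyT⟩, hyx⟩ := hx _ hU
    have hne : ∃ p, y p ≠ x p := by
      by_contra hcon
      push Not at hcon
      exact hyx (funext hcon)
    classical
    refine ⟨y, hyT, Nat.find hne, ?_, ?_, Nat.find_spec hne⟩
    · by_contra hlt
      push Not at hlt
      exact Nat.find_spec hne (hyU _ hlt)
    · intro i hi
      by_contra h
      exact Nat.find_min hne hi h
  choose Y hYT P hP hPeq hPne using hstep
  -- recursion
  let n : ℕ → ℕ := fun i => Nat.rec 0 (fun _ r => P r + 1) i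
  have hn : ∀ i, n (i + 1) = P (n i) + 1 := fun i => rfl
  have hmono : StrictMono (fun i => P (n i)) := by
    apply strictMono_nat_of_lt_succ
    intro i
    have := hP (n (i + 1))
    rw [hn i] at this ⊢
    omega
  refine ⟨fun i => Y (n i), fun i => P (n i), hmono, fun i => hYT _, ?_⟩
  intro i j hij
  have h1 : P (n i) < P (n j) := hmono hij
  show Y (n i) (P (n i)) ≠ Y (n j) (P (n i))
  rw [hPeq (n j) _ h1]
  exact hPne (n i)

lemma bad_finite [CompleteSpace X] (hS : ∀ (c : ℕ → (X →L[ℝ] ℝ)) (L : Set X),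
    (∀ w : X, (∀ n, c n w = 0) → w = 0) →
    IsCompact ((toWeakSpace ℝ X) '' L) →
    ∀ (v : ℕ → X), (∀ k, v k ∈ L) →
    ∀ (F : ℕ → (X →L[ℝ] ℝ)), (∀ n w, ∑ k ∈ Finset.range n, |F k w| ≤ ‖w‖) →
    ∀ δ : ℝ, 0 < δ → ∃ k, F k (v k) < δ) (hΦ : Good Φ) (H : NS Φ X)
    (hinc : ∀ (k : ℕ) (φ : ℕ → Node →₀ ℝ), (∀ i < k, φ i ∈ Φ) →
      (∀ i < k, ∀ j < k, i ≠ j → ∀ s t : Node, φ i s ≠ 0 → φ j t ≠ 0 → ¬ s <+: t) →
      ∑ i ∈ Finset.range k, φ i ∈ Φ) (L : Set X)
    (hL : IsCompact ((toWeakSpace ℝ X) '' L)) {θ : ℝ} (hθ : 0 < θ) :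
    {x | Bad H L θ x}.Finite := by
  by_contra hinf
  obtain ⟨y, p, hp, hy, hne⟩ := exists_seq_acc (Set.not_infinite.not.1 (by simpa using hinf))
  have hch : ∀ i, ∃ v ∈ L, ∃ φ ∈ Φ,
      (∀ t, φ t ≠ 0 → p i + 1 ≤ t.length ∧ t = node (y i) t.length) ∧ θ < ap H v φ :=
    fun i => hy i (p i + 1)
  choose v hv φ hφ hsupp hlt using hch
  have hinc' : ∀ i j, i ≠ j → ∀ s t : Node, φ i s ≠ 0 → φ j t ≠ 0 → ¬ s <+: t := by
    intro i j hij s t hs ht hst
    obtain ⟨hs1, hs2⟩ := hsupp i s hs
    obtain ⟨ht1, ht2⟩ := hsupp j t ht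
    have hlen := hst.length_le
    rcases lt_or_gt_of_ne hij with h | h
    · have h1 := getD_of_prefix hst (i := p i) (by omega)
      rw [hs2, ht2, ext_node _ (by omega), ext_node _ (by omega)] at h1
      exact hne i j h h1
    · have h1 := getD_of_prefix hst (i := p j) (by have := hp h; omega)
      rw [hs2, ht2, ext_node _ (by have := hp h; omega), ext_node _ (by omega)] at h1
      exact hne j i h h1.symm
  refine tool hS hΦ H L hL v hv φ 1 θ one_pos hθ (fun i => (hlt i).le) ?_ ?_
  · intro i j hij t ht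
    by_contra h
    exact hinc' i j hij t t ht h (List.prefix_refl t)
  · intro n
    rw [one_smul]
    exact hinc n φ (fun i _ => hφ i) (fun i _ j _ hij => hinc' i j hij)

end main

theorem stmtA (hM : StmtM) (hS : StmtS) (hP : StmtP) (hD : StmtD) : StmtA := by
  classical
  intro f hf hC X _ _ _ H L hL1 hL ε hε
  obtain ⟨hΦ, -, hinc, hhalf⟩ := hD f
  by_contra hcon
  push Not at hcon
  have hS' := hS X
  -- the exceptional branches
  have hfin : ∀ n : ℕ, {x | Bad H L (1 / ((n : ℝ) + 1)) x}.Finite := fun n =>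
    bad_finite hS' hΦ H hinc L hL (by positivity)
  set F : ℕ → Finset (ℕ → Bool) := fun m =>
    (Finset.range m).biUnion (fun n => (hfin n).toFinset.filter (fun x => x ∉ Set.range f))
    with hFdef
  have hF1 : ∀ m, ∀ x ∈ F m, x ∉ Set.range f := by
    intro m x hx
    rw [hFdef, Finset.mem_biUnion] at hx
    obtain ⟨n, -, hn⟩ := hx
    exact (Finset.mem_filter.1 hn).2
  have hF2 : ∀ (x : ℕ → Bool) (θ : ℝ), 0 < θ → x ∉ Set.range f → Bad H L θ x →
      ∃ m0, ∀ m ≥ m0, x ∈ F m := by
    intro x θ hθ hx hb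
    obtain ⟨n, hn⟩ := exists_nat_one_div_lt hθ
    refine ⟨n + 1, fun m hm => ?_⟩
    rw [hFdef, Finset.mem_biUnion]
    refine ⟨n, Finset.mem_range.2 (by omega), Finset.mem_filter.2 ⟨?_, hx⟩⟩
    rw [Set.Finite.mem_toFinset]
    exact hb.mono hn.le
  -- the bad vectors and functionals
  have hstep : ∀ m : ℕ, ∃ v ∈ L, ∃ φ ∈ Phi f, (∀ t, φ t ≠ 0 → t ∉ RR (F m) m) ∧
      (∀ t, 0 ≤ φ t) ∧ ε < ap H v φ := by
    intro m
    obtain ⟨v, hv, hw⟩ := hcon (F m) m (hF1 m)
    obtain ⟨P, hPn, hPc⟩ := hP (Phi f) hΦ X H (RR (F m) m)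
    have hvn : ‖v‖ ≤ 1 := by simpa using hL1 hv
    have hKK : P v ∈ KK H (F m) m := by
      refine ⟨(hPn v).trans hvn, fun t ht => ?_⟩
      rw [hPc, if_neg ht]
    have hgt : ε < ‖v - P v‖ := by
      by_contra hle
      push Not at hle
      obtain ⟨t, ht, htε⟩ := hw _ hKK hle
      have h1 := co_le hΦ H t (v - P v)
      rw [map_sub, hPc, if_neg ht, sub_zero] at h1
      linarith
    have hex : ∃ φ ∈ Phi f, ε < |∑ t ∈ φ.support, φ t * H.co t (v - P v)| := by
      by_contra hno
      push Not at hno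
      exact absurd (H.norm_le _ ε hε.le hno) (not_le.2 hgt)
    obtain ⟨φ, hφ, hφε⟩ := hex
    refine ⟨v, hv, rs (fun t => t ∉ RR (F m) m) φ, rs_mem hΦ _ hφ, fun t ht => (rs_ne ht).1,
      ?_, ?_⟩
    · intro t
      rw [rs_apply]
      split_ifs <;> simp
    · refine hφε.trans_le ?_
      rw [ap_rs, Finset.sum_filter]
      refine (Finset.abs_sum_le_sum_abs _ _).trans ?_
      apply Finset.sum_le_sum
      intro t _
      rw [abs_mul, map_sub, hPc]
      by_cases ht : t ∈ RR (F m) m
      · simp [ht]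
      · simp [ht]
  choose v hvL φ hφ hsupp hpos hbig using hstep
  have hv1 : ∀ m, ‖v m‖ ≤ 1 := fun m => by simpa using hL1 (hvL m)
  have hwsum : ∀ m (p : Node → Prop) {_ : DecidablePred p},
      ∑ t ∈ (φ m).support.filter p, φ m t * |H.co t (v m)| = ap H (v m) (rs p (φ m)) := by
    intro m p _
    rw [ap_rs]
    apply Finset.sum_congr rfl
    intro t _
    rw [abs_of_nonneg (hpos m t)]
  have hwsum' : ∀ m, ∑ t ∈ (φ m).support, φ m t * |H.co t (v m)| = ap H (v m) (φ m) := by
    intro m
    unfold ap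
    apply Finset.sum_congr rfl
    intro t _
    rw [abs_of_nonneg (hpos m t)]
  have hlev : ∀ m t, φ m t ≠ 0 → m ≤ t.length := by
    intro m t ht
    by_contra h
    exact hsupp m t ht (Or.inl (not_le.1 h))
  obtain ⟨c, hc, hor⟩ := hM f hf hC (fun m t => φ m t * |H.co t (v m)|)
    (fun m => (φ m).support) ε hε (fun m t => mul_nonneg (hpos m t) (abs_nonneg _))
    (fun m t ht => hlev m t (Finsupp.mem_support_iff.1 ht))
    (fun m => by rw [hwsum']; exact (hbig m).le)
    (fun m => by rw [hwsum']; exact (ap_le hΦ H _ (hφ m)).trans (hv1 m))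
  -- the maximal level of the support
  set lv : ℕ → ℕ := fun m => (φ m).support.sup List.length with hlvdef
  have hlv : ∀ m t, φ m t ≠ 0 → t.length ≤ lv m := fun m t ht =>
    Finset.le_sup (f := List.length) (Finsupp.mem_support_iff.2 ht)
  rcases hor with ⟨g, hg⟩ | ⟨x, hx, hxc⟩
  · -- first alternative
    choose μ hμ1 hμ2 using hg
    let m : ℕ → ℕ := fun i => Nat.rec (μ 0 (g 0 + 1))
      (fun i r => μ (i + 1) (g (i + 1) + (i + 2) + r + 1 + lv r)) i
    have hm0 : m 0 = μ 0 (g 0 + 1) := rfl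
    have hms : ∀ i, m (i + 1) = μ (i + 1) (g (i + 1) + (i + 2) + m i + 1 + lv (m i)) :=
      fun i => rfl
    have hmge : ∀ i, g (i + 1) + (i + 2) + m i + 1 + lv (m i) ≤ m (i + 1) := by
      intro i
      rw [hms i]
      exact hμ1 _ _
    have hm0ge : g 0 + 1 ≤ m 0 := by
      rw [hm0]
      exact hμ1 _ _
    have hmmono : StrictMono m := strictMono_nat_of_lt_succ (fun i => by
      have := hmge i; omega)
    have hgm : ∀ i, g i ≤ m i := by
      intro i
      rcases i with _ | i
      · omega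
      · have := hmge i; omega
    have him : ∀ i, i < m i := by
      intro i
      rcases i with _ | i
      · omega
      · have := hmge i; omega
    set Q : ℕ → Node → Prop := fun i t => ∃ y : ℕ → ℕ, (∀ j ≤ i, y j ≤ g j) ∧
              ∀ j ≤ i, f y j = ext t j with hQ
    have hmass : ∀ i, c ≤ ap H (v (m i)) (rs (Q i) (φ (m i))) := by
      intro i
      rcases i with _ | i
      · have h := hμ2 0 (g 0 + 1)
        rw [hwsum] at h
        exact h
      · have h := hμ2 (i + 1) (g (i + 1) + (i + 2) + m i + 1 + lv (m i))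
        rw [hwsum] at h
        exact h
    have hlevs : ∀ i t, rs (Q i) (φ (m i)) t ≠ 0 → m i ≤ t.length ∧ t.length < m (i + 1) ∧
        ∃ y : ℕ → ℕ, (∀ j ≤ i, y j ≤ g j) ∧ ∀ j ≤ i, f y j = ext t j := by
      intro i t ht
      obtain ⟨h1, h2⟩ := rs_ne ht
      refine ⟨hlev _ t h2, ?_, h1⟩
      have := hlv _ t h2
      have := hmge i
      omega
    refine tool hS' hΦ H L hL (fun i => v (m i)) (fun i => hvL _)
      (fun i => rs (Q i) (φ (m i))) (1 / 2) c (by norm_num) hc hmass ?_ ?_
    · intro i j hij t ht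
      by_contra h
      obtain ⟨h1, h2, -⟩ := hlevs i t ht
      obtain ⟨h3, h4, -⟩ := hlevs j t h
      rcases lt_or_gt_of_ne hij with h | h
      · have := hmmono.monotone (show i + 1 ≤ j from h)
        omega
      · have := hmmono.monotone (show j + 1 ≤ i from h)
        omega
    · intro n
      exact hhalf g m n _ hmmono hgm him (fun i _ => rs_mem hΦ _ (hφ _))
        (fun i _ t ht => hlevs i t ht)
  · -- second alternative
    have hM0 : ∃ M : ℕ, ∀ m ≥ M,
        ap H (v m) (rs (fun t => t = node x t.length) (φ m)) ≤ c / 2 := by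
      by_cases hb : Bad H L (c / 2) x
      · obtain ⟨m0, hm0⟩ := hF2 x (c / 2) (by positivity) hx hb
        refine ⟨m0, fun m hm => ?_⟩
        have : ap H (v m) (rs (fun t => t = node x t.length) (φ m)) = 0 := by
          rw [ap_rs]
          apply Finset.sum_eq_zero
          intro t ht
          exfalso
          rw [Finset.mem_filter, Finsupp.mem_support_iff] at ht
          exact hsupp m t ht.1 (Or.inr ⟨x, hm0 m hm, ht.2⟩)
        rw [this]
        positivity
      · unfold Bad at hb
        push Not at hb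
        obtain ⟨n, hn⟩ := hb
        refine ⟨n, fun m hm => ?_⟩
        apply hn _ (hvL m) _ (rs_mem hΦ _ (hφ m))
        intro t ht
        obtain ⟨h1, h2⟩ := rs_ne ht
        exact ⟨(hm.le : n ≤ m).trans (hlev m t h2), h1⟩
    obtain ⟨M, hM0⟩ := hM0
    choose μ hμ1 hμ2 using hxc
    -- the recursion: pairs `(m i, j i)`
    let pq : ℕ → ℕ × ℕ := fun i => Nat.rec (μ 0 M, 0)
      (fun _ r => (μ (lv r.1 + r.1 + 1) (M + (lv r.1 + r.1 + 1)), lv r.1 + r.1 + 1)) i
    set m : ℕ → ℕ := fun i => (pq i).1 with hmdef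
    set j : ℕ → ℕ := fun i => (pq i).2 with hjdef
    have hj : ∀ i, j (i + 1) = lv (m i) + m i + 1 := fun i => rfl
    have hms : ∀ i, m (i + 1) = μ (j (i + 1)) (M + j (i + 1)) := fun i => rfl
    have hm0 : m 0 = μ (j 0) M := rfl
    have hmM : ∀ i, M ≤ m i := by
      intro i
      rcases i with _ | i
      · rw [hm0]; exact hμ1 _ _
      · rw [hms]
        have := hμ1 (j (i + 1)) (M + j (i + 1))
        omega
    have hmj : ∀ i, j i ≤ m i := by
      intro i
      rcases i with _ | i
      · exact Nat.zero_le _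
      · rw [hms]
        have := hμ1 (j (i + 1)) (M + j (i + 1))
        omega
    have hjm : ∀ i i', i < i' → lv (m i) + 1 ≤ j i' := by
      intro i i' hii
      have hjmono : Monotone j := monotone_nat_of_le_succ (fun i => by
        have := hj i
        have := hmj i
        omega)
      have h1 := hjmono (show i + 1 ≤ i' from hii)
      have := hj i
      omega
    have hmass0 : ∀ i, c ≤ ap H (v (m i)) (rs (fun t => ∀ k < j i, ext t k = x k) (φ (m i))) := by
      intro i
      rcases i with _ | i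
      · have h := hμ2 (j 0) M
        rw [hwsum] at h
        exact h
      · have h := hμ2 (j (i + 1)) (M + j (i + 1))
        rw [hwsum] at h
        exact h
    set D : ℕ → Node → Prop := fun i t => (∀ k < j i, ext t k = x k) ∧ t ≠ node x t.length
      with hDdef
    have hmass : ∀ i, c / 2 ≤ ap H (v (m i)) (rs (D i) (φ (m i))) := by
      intro i
      have h1 := hmass0 i
      have h2 := hM0 (m i) (hmM i)
      rw [ap_rs, Finset.sum_filter] at h1 h2 ⊢
      have h3 : ∀ t ∈ (φ (m i)).support,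
          (if (∀ k < j i, ext t k = x k) then |φ (m i) t| * |H.co t (v (m i))| else 0) ≤
          (if D i t then |φ (m i) t| * |H.co t (v (m i))| else 0) +
          (if t = node x t.length then |φ (m i) t| * |H.co t (v (m i))| else 0) := by
        intro t _
        have hnn : 0 ≤ |φ (m i) t| * |H.co t (v (m i))| := by positivity
        by_cases ha : ∀ k < j i, ext t k = x k
        · by_cases hb : t = node x t.length
          · rw [if_pos ha, if_pos hb]
            split_ifs
            · linarith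
            · linarith
          · have hDt : D i t := ⟨ha, hb⟩
            rw [if_pos ha, if_pos hDt, if_neg hb]
            linarith
        · rw [if_neg ha]
          split_ifs <;> linarith
      have h4 := Finset.sum_le_sum h3
      rw [Finset.sum_add_distrib] at h4
      linarith
    have hinc' : ∀ i i', i ≠ i' → ∀ s t : Node, rs (D i) (φ (m i)) s ≠ 0 →
        rs (D i') (φ (m i')) t ≠ 0 → ¬ s <+: t := by
      intro i i' hii s t hs ht hst
      obtain ⟨hs1, hs2⟩ := rs_ne hs
      obtain ⟨ht1, ht2⟩ := rs_ne ht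
      have hlen := hst.length_le
      rcases lt_or_gt_of_ne hii with h | h
      · apply hs1.2
        apply eq_node
        intro k hk
        rw [getD_of_prefix hst hk]
        apply ht1.1
        have := hlv _ s hs2
        have := hjm i i' h
        omega
      · have h1 := hlv _ t ht2
        have h2 := hjm i' i h
        have h3 := hmj i
        have h4 := hlev _ s hs2
        omega
    refine tool hS' hΦ H L hL (fun i => v (m i)) (fun i => hvL _)
      (fun i => rs (D i) (φ (m i))) 1 (c / 2) one_pos (by positivity) hmass ?_ ?_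
    · intro i i' hii t ht
      by_contra h
      exact hinc' i i' hii t t ht h (List.prefix_refl t)
    · intro n
      rw [one_smul]
      exact hinc n _ (fun i _ => rs_mem hΦ _ (hφ _)) (fun i _ i' _ hii => hinc' i i' hii)

end Pool.Agent.Helper77.TK
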