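import Pool.Agent.Helper26.TK.Space
import Pool.Agent.Helper26.TK.Stmts

/-!
Packet TK-A for MP_c88f67_an: the absorption of weakly compact sets.
First part: elementary lemmas on nodes and the tool (T).
-/

namespace Pool.Agent.Helper77.TK

open Filter Topology Pool.Agent.Helper26.TK

lemma getD_of_prefix {s t : Node} (h : s <+: t) {i : ℕ} (hi : i < s.length) :
    ext s i = ext t i := by
  obtain ⟨r, rfl⟩ := h
  unfold ext
  exact (List.getD_append _ _ _ _ hi).symm

lemma length_node (x : ℕ → Bool) (n : ℕ) : (node x n).length = n := by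
  simp [node]

lemma ext_node (x : ℕ → Bool) {n i : ℕ} (hi : i < n) : ext (node x n) i = x i := by
  have h : i < (node x n).length := by rw [length_node]; exact hi
  unfold ext
  rw [List.getD_eq_getElem _ _ h]
  simp [node]

lemma eq_node {t : Node} {x : ℕ → Bool} (h : ∀ i < t.length, ext t i = x i) :
    t = node x t.length := by
  apply List.ext_getElem
  · rw [length_node]
  · intro i h1 h2
    have := h i h1
    unfold ext at this
    rw [List.getD_eq_getElem _ _ h1] at this
    rw [this]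
    simp [node]

section pairing

variable {Φ : Set (Node →₀ ℝ)} {X : Type} [NormedAddCommGroup X] [NormedSpace ℝ X]

/-- The pairing of a finitely supported function with the vector `v`. -/
noncomputable def pr (H : NS Φ X) (v : X) : (Node →₀ ℝ) →ₗ[ℝ] ℝ :=
  Finsupp.linearCombination ℝ (fun t => H.co t v)

lemma pr_apply (H : NS Φ X) (v : X) (φ : Node →₀ ℝ) :
    pr H v φ = ∑ t ∈ φ.support, φ t * H.co t v := by
  simp [pr, Finsupp.linearCombination_apply, Finsupp.sum, smul_eq_mul]

lemma pr_le (H : NS Φ X) {φ : Node →₀ ℝ} (hφ : φ ∈ Φ) (v : X) : |pr H v φ| ≤ ‖v‖ := by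
  rw [pr_apply]; exact H.le_norm φ hφ v

/-- The absolute pairing. -/
noncomputable def ap (H : NS Φ X) (v : X) (φ : Node →₀ ℝ) : ℝ :=
  ∑ t ∈ φ.support, |φ t| * |H.co t v|

/-- The modulus of `φ` with the signs of `co t v`. -/
noncomputable def sg (H : NS Φ X) (v : X) (φ : Node →₀ ℝ) : Node →₀ ℝ :=
  Finsupp.onFinset φ.support (fun t => (SignType.sign (H.co t v) : ℝ) * |φ t|) (by
    intro t ht
    rw [Finsupp.mem_support_iff]
    intro h
    apply ht
    simp [h])

lemma sg_apply (H : NS Φ X) (v : X) (φ : Node →₀ ℝ) (t : Node) :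
    sg H v φ t = (SignType.sign (H.co t v) : ℝ) * |φ t| := by
  simp [sg]

lemma sign_abs (a : ℝ) : (SignType.sign a : ℝ) = 0 ∨ |(SignType.sign a : ℝ)| = 1 := by
  rcases lt_trichotomy a 0 with h | h | h
  · right; simp [sign_neg h]
  · left; simp [h]
  · right; simp [sign_pos h]

lemma sg_dom (H : NS Φ X) (v : X) (φ : Node →₀ ℝ) (t : Node) :
    sg H v φ t = 0 ∨ |sg H v φ t| = |φ t| := by
  rw [sg_apply]
  rcases sign_abs (H.co t v) with h | h
  · left; rw [h]; ring
  · right; rw [abs_mul, h, abs_abs]; ring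

lemma sg_mem (hΦ : Good Φ) (H : NS Φ X) (v : X) {φ : Node →₀ ℝ} (hφ : φ ∈ Φ) :
    sg H v φ ∈ Φ := hΦ.dom φ hφ _ (sg_dom H v φ)

lemma pr_sg (H : NS Φ X) (v : X) (φ : Node →₀ ℝ) : pr H v (sg H v φ) = ap H v φ := by
  rw [pr_apply]
  unfold ap
  have hsub : (sg H v φ).support ⊆ φ.support := by
    intro t ht
    rw [Finsupp.mem_support_iff] at ht ⊢
    intro h
    apply ht
    rw [sg_apply, h]
    simp
  rw [Finset.sum_subset hsub]
  · apply Finset.sum_congr rfl
    intro t _
    rw [sg_apply]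
    have h := sign_mul_self (H.co t v)
    calc (SignType.sign (H.co t v) : ℝ) * |φ t| * H.co t v
        = |φ t| * ((SignType.sign (H.co t v) : ℝ) * H.co t v) := by ring
      _ = |φ t| * |H.co t v| := by rw [h]
  · intro t _ ht
    rw [Finsupp.notMem_support_iff] at ht
    rw [ht, zero_mul]

lemma ap_le (hΦ : Good Φ) (H : NS Φ X) (v : X) {φ : Node →₀ ℝ} (hφ : φ ∈ Φ) :
    ap H v φ ≤ ‖v‖ := by
  rw [← pr_sg]
  exact (le_abs_self _).trans (pr_le H (sg_mem hΦ H v hφ) v)

lemma abs_pr_le_ap (H : NS Φ X) (v : X) (φ : Node →₀ ℝ) : |pr H v φ| ≤ ap H v φ := by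
  rw [pr_apply]
  unfold ap
  refine (Finset.abs_sum_le_sum_abs _ _).trans ?_
  apply Finset.sum_le_sum
  intro t _
  rw [abs_mul]

lemma co_le (hΦ : Good Φ) (H : NS Φ X) (t : Node) (v : X) : |H.co t v| ≤ ‖v‖ := by
  have h := pr_le H (hΦ.single t) v
  simpa [pr] using h

open Classical in
/-- The modulus of `φ` restricted to `p`. -/
noncomputable def rs (p : Node → Prop) (φ : Node →₀ ℝ) : Node →₀ ℝ :=
  Finsupp.onFinset φ.support (fun t => if p t then |φ t| else 0) (by
    intro t ht
    rw [Finsupp.mem_support_iff]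
    intro h
    apply ht
    simp [h])

open Classical in
lemma rs_apply (p : Node → Prop) (φ : Node →₀ ℝ) (t : Node) :
    rs p φ t = if p t then |φ t| else 0 := by
  simp [rs]

lemma rs_ne {p : Node → Prop} {φ : Node →₀ ℝ} {t : Node} (h : rs p φ t ≠ 0) :
    p t ∧ φ t ≠ 0 := by
  classical
  rw [rs_apply] at h
  by_cases hp : p t
  · refine ⟨hp, ?_⟩
    intro h0
    apply h
    simp [h0]
  · simp [hp] at h

lemma rs_mem (hΦ : Good Φ) (p : Node → Prop) {φ : Node →₀ ℝ} (hφ : φ ∈ Φ) : rs p φ ∈ Φ := by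
  classical
  apply hΦ.dom φ hφ
  intro t
  rw [rs_apply]
  by_cases hp : p t
  · right; simp [hp]
  · left; simp [hp]

lemma ap_rs (H : NS Φ X) (v : X) (p : Node → Prop) [DecidablePred p] (φ : Node →₀ ℝ) :
    ap H v (rs p φ) = ∑ t ∈ φ.support.filter p, |φ t| * |H.co t v| := by
  unfold ap
  have hs : (rs p φ).support = φ.support.filter p := by
    ext t
    rw [Finset.mem_filter, Finsupp.mem_support_iff, Finsupp.mem_support_iff, rs_apply]
    by_cases hp : p t
    · simp [hp]
    · simp [hp]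
  rw [hs]
  apply Finset.sum_congr rfl
  intro t ht
  rw [Finset.mem_filter] at ht
  rw [rs_apply]
  simp [ht.2]

/-- The tool (T). -/
theorem tool [CompleteSpace X] (hS : ∀ (c : ℕ → (X →L[ℝ] ℝ)) (L : Set X),
    (∀ w : X, (∀ n, c n w = 0) → w = 0) →
    IsCompact ((toWeakSpace ℝ X) '' L) →
    ∀ (v : ℕ → X), (∀ k, v k ∈ L) →
    ∀ (F : ℕ → (X →L[ℝ] ℝ)), (∀ n w, ∑ k ∈ Finset.range n, |F k w| ≤ ‖w‖) →
    ∀ δ : ℝ, 0 < δ → ∃ k, F k (v k) < δ) (hΦ : Good Φ) (H : NS Φ X) (L : Set X)
    (hL : IsCompact ((toWeakSpace ℝ X) '' L)) (v : ℕ → X) (hv : ∀ i, v i ∈ L)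
    (φ : ℕ → Node →₀ ℝ) (c0 δ : ℝ) (hc0 : 0 < c0) (hδ : 0 < δ)
    (hpair : ∀ i, δ ≤ ap H (v i) (φ i))
    (hdisj : ∀ i j, i ≠ j → ∀ t, φ i t ≠ 0 → φ j t = 0)
    (hsum : ∀ n, c0 • ∑ i ∈ Finset.range n, φ i ∈ Φ) : False := by
  classical
  obtain ⟨en, hen⟩ := exists_surjective_nat Node
  set F : ℕ → (X →L[ℝ] ℝ) := fun i =>
    ∑ t ∈ (φ i).support, (c0 * sg H (v i) (φ i) t) • H.co t with hF
  have hFapp : ∀ i w, F i w = c0 * pr H w (sg H (v i) (φ i)) := by
    intro i w
    have hsub : (sg H (v i) (φ i)).support ⊆ (φ i).support := by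
      intro t ht
      rw [Finsupp.mem_support_iff] at ht ⊢
      intro h
      apply ht
      rw [sg_apply, h]
      simp
    rw [pr_apply, Finset.sum_subset hsub]
    · rw [hF]
      simp only [sum_apply, smul_apply, smul_eq_mul]
      rw [Finset.mul_sum]
      apply Finset.sum_congr rfl
      intro t _
      ring
    · intro t _ ht
      rw [Finsupp.notMem_support_iff] at ht
      rw [ht, zero_mul]
  obtain ⟨k, hk⟩ := hS (fun n => H.co (en n)) L (by
    intro w hw
    have h0 : ‖w‖ ≤ 0 := by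
      apply H.norm_le w 0 le_rfl
      intro ψ _
      have : ∑ t ∈ ψ.support, ψ t * H.co t w = 0 := by
        apply Finset.sum_eq_zero
        intro t _
        obtain ⟨n, rfl⟩ := hen t
        rw [hw n, mul_zero]
      rw [this, abs_zero]
    exact norm_le_zero_iff.1 h0) hL v hv F (by
    intro n w
    set χ : Node →₀ ℝ := c0 • ∑ k ∈ Finset.range n,
      (SignType.sign (F k w) : ℝ) • sg H (v k) (φ k) with hχ
    have hχmem : χ ∈ Φ := by
      apply hΦ.dom _ (hsum n)
      intro t
      by_cases ht : ∃ k ∈ Finset.range n, φ k t ≠ 0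
      · obtain ⟨k, hk, hkt⟩ := ht
        have h1 : χ t = c0 * ((SignType.sign (F k w) : ℝ) * sg H (v k) (φ k) t) := by
          rw [hχ, Finsupp.smul_apply, Finsupp.finsetSum_apply, smul_eq_mul]
          congr 1
          rw [Finset.sum_eq_single_of_mem k hk]
          · rw [Finsupp.smul_apply, smul_eq_mul]
          · intro b _ hb
            have : φ b t = 0 := hdisj k b (Ne.symm hb) t hkt
            rw [Finsupp.smul_apply, sg_apply, this]
            simp
        have h2 : (c0 • ∑ i ∈ Finset.range n, φ i) t = c0 * φ k t := by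
          rw [Finsupp.smul_apply, Finsupp.finsetSum_apply, smul_eq_mul]
          congr 1
          rw [Finset.sum_eq_single_of_mem k hk]
          intro b _ hb
          exact hdisj k b (Ne.symm hb) t hkt
        rw [h1, h2]
        rcases sign_abs (F k w) with h | h
        · left; rw [h]; ring
        · rcases sg_dom H (v k) (φ k) t with h' | h'
          · left; rw [h']; ring
          · right
            rw [abs_mul, abs_mul, abs_mul, h, h', one_mul]
      · push Not at ht
        left
        rw [hχ, Finsupp.smul_apply, Finsupp.finsetSum_apply, smul_eq_mul,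
          Finset.sum_eq_zero, mul_zero]
        intro b hb
        rw [Finsupp.smul_apply, sg_apply, ht b hb]
        simp
    have h3 := pr_le H hχmem w
    have h4 : pr H w χ = ∑ k ∈ Finset.range n, |F k w| := by
      rw [hχ, map_smul, map_sum, smul_eq_mul, Finset.mul_sum]
      apply Finset.sum_congr rfl
      intro k _
      rw [map_smul, smul_eq_mul, ← sign_mul_self (F k w)]
      have := hFapp k w
      calc c0 * ((SignType.sign (F k w) : ℝ) * pr H w (sg H (v k) (φ k)))
          = (SignType.sign (F k w) : ℝ) * (c0 * pr H w (sg H (v k) (φ k))) := by ring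
        _ = _ := by rw [← this]
    rw [h4] at h3
    exact (le_abs_self _).trans h3) (c0 * δ) (by positivity)
  rw [hFapp, pr_sg] at hk
  have := hpair k
  nlinarith

end pairing

end Pool.Agent.Helper77.TK
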